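import Pool.Agent.H77.PUC.StmtsA

/-!
# Board puc, block CHV: a proper valuation ring containing `K` of an algebraic extension of `K(z)`
is a `K`-place
-/

set_option autoImplicit false

universe u

namespace PUC

open Polynomial

theorem CHV_trdeg (K Ω : Type u) [Field K] [Field Ω] [Algebra K Ω]
    [Algebra (RatFunc K) Ω] [IsScalarTower K (RatFunc K) Ω]
    [Algebra.IsAlgebraic (RatFunc K) Ω] : Algebra.trdeg K Ω = 1 := by
  have h1 : Algebra.trdeg K K[X] + Algebra.trdeg K[X] (RatFunc K) =
    Algebra.trdeg K (RatFunc K) := trdeg_add_eq K K[X]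
  have h2 : Algebra.trdeg K (RatFunc K) + Algebra.trdeg (RatFunc K) Ω = Algebra.trdeg K Ω :=
    trdeg_add_eq K (RatFunc K)
  have h3 : Algebra.IsAlgebraic K[X] (RatFunc K) :=
    (IsFractionRing.comap_isAlgebraic_iff (K := RatFunc K)).2 inferInstance
  rw [trdeg_eq_zero (R := K[X]) (A := RatFunc K), add_zero, Polynomial.trdeg_of_isDomain] at h1
  rw [trdeg_eq_zero (R := RatFunc K) (A := Ω), add_zero, ← h1] at h2
  exact h2.symm

theorem CHV_unit {K Ω : Type u} [Field K] [IsAlgClosed K] [Field Ω] [Algebra K Ω]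
    (V : ValuationSubring Ω) (hK : ∀ c : K, algebraMap K Ω c ∈ V) (f : Ω)
    (hf : ∀ c : K, V.valuation (f - algebraMap K Ω c) = 1) (Q : K[X]) (hQ : Q ≠ 0) :
    V.valuation (aeval f Q) = 1 := by
  have h1 := (IsAlgClosed.splits Q).eq_prod_roots
  rw [h1, map_mul, map_mul, aeval_C, map_multiset_prod, map_multiset_prod, Multiset.map_map,
    Multiset.map_map]
  have h2 : V.valuation (algebraMap K Ω Q.leadingCoeff) = 1 := by
    have h0 : Q.leadingCoeff ≠ 0 := leadingCoeff_ne_zero.2 hQ
    have h3 := (V.valuation_le_one_iff _).2 (hK Q.leadingCoeff)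
    have h4 := (V.valuation_le_one_iff _).2 (hK Q.leadingCoeff⁻¹)
    have h5 : V.valuation (algebraMap K Ω Q.leadingCoeff) *
        V.valuation (algebraMap K Ω Q.leadingCoeff⁻¹) = 1 := by
      rw [← map_mul, ← map_mul, mul_inv_cancel₀ h0, map_one, map_one]
    refine le_antisymm h3 ?_
    calc (1 : V.ValueGroup) = V.valuation (algebraMap K Ω Q.leadingCoeff) *
        V.valuation (algebraMap K Ω Q.leadingCoeff⁻¹) := h5.symm
      _ ≤ V.valuation (algebraMap K Ω Q.leadingCoeff) * 1 := by gcongr
      _ = _ := mul_one _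
  rw [h2, one_mul]
  refine Multiset.prod_eq_one fun x hx => ?_
  obtain ⟨a, -, rfl⟩ := Multiset.mem_map.1 hx
  simp only [Function.comp_apply, map_sub, aeval_X, aeval_C]
  exact hf a

theorem sChv : SChv.{u} := by
  intro K Ω _ _ _ _ _ _ _ V hK hV f hfV
  by_contra hcon
  push Not at hcon
  have hf : ∀ c : K, V.valuation (f - algebraMap K Ω c) = 1 := by
    intro c
    have h1 := (V.valuation_le_one_iff _).2 (sub_mem hfV (hK c))
    have h2 := hcon c
    rw [ValuationSubring.mem_nonunits_iff, not_lt] at h2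
    exact le_antisymm h1 h2
  obtain ⟨t, htV, ht0, ht1⟩ : ∃ t : Ω, t ∈ V ∧ t ≠ 0 ∧ V.valuation t < 1 := by
    have : ∃ g : Ω, g ∉ V := by
      by_contra h
      push Not at h
      exact hV (eq_top_iff.2 fun x _ => h x)
    obtain ⟨g, hg⟩ := this
    have hg0 : g ≠ 0 := by
      rintro rfl
      exact hg (zero_mem _)
    have h1 : g⁻¹ ∈ V.nonunits := V.inv_mem_nonunits_iff.2 (Or.inr hg)
    exact ⟨g⁻¹, ValuationSubring.nonunits_subset h1, inv_ne_zero hg0, h1⟩
  have hunit := CHV_unit V hK f hf
  have hind : AlgebraicIndependent K (fun _ : Unit => f) := by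
    rw [algebraicIndependent_unique_type_iff, transcendental_iff]
    intro Q hQ
    by_contra hQ0
    have := hunit Q hQ0
    rw [hQ, map_zero] at this
    exact zero_ne_one this
  have htb : IsTranscendenceBasis K (fun _ : Unit => f) := by
    refine hind.isTranscendenceBasis_of_lift_trdeg_le_of_finite ?_
    rw [CHV_trdeg K Ω]
    simp
  have halg := htb.isAlgebraic.isAlgebraic t
  set S := Algebra.adjoin K (Set.range fun _ : Unit => f) with hS
  have hSQ : ∀ s : S, ∃ Q : K[X], (s : Ω) = aeval f Q := by
    intro s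
    have hSe : S = Algebra.adjoin K {f} := by rw [hS, Set.range_const]
    have h1 : (s : Ω) ∈ Algebra.adjoin K {f} := hSe ▸ s.2
    rw [Algebra.adjoin_singleton_eq_range_aeval] at h1
    obtain ⟨Q, hQ⟩ := h1
    exact ⟨Q, hQ.symm⟩
  have hS1 : ∀ s : S, s ≠ 0 → V.valuation (s : Ω) = 1 := by
    intro s hs
    obtain ⟨Q, hQ⟩ := hSQ s
    rw [hQ]
    refine hunit Q ?_
    rintro rfl
    rw [map_zero] at hQ
    exact hs (Subtype.ext hQ)
  have hSV : ∀ s : S, (s : Ω) ∈ V := by
    intro s
    by_cases hs : s = 0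
    · rw [hs]
      exact zero_mem V
    · exact (V.valuation_le_one_iff _).1 (hS1 s hs).le
  have hval : ∀ q : S[X], aeval t q ∈ V := by
    intro q
    rw [aeval_eq_sum_range]
    refine sum_mem fun i _ => ?_
    rw [Algebra.smul_def]
    exact mul_mem (hSV _) (pow_mem htV i)
  have key : ∀ n : ℕ, ∀ p : S[X], p.natDegree < n → p ≠ 0 → aeval t p ≠ 0 := by
    intro n
    induction n with
    | zero => intro p hp; exact absurd hp (Nat.not_lt_zero _)
    | succ n ih =>
      intro p hp hp0
      have h1 := Polynomial.divX_mul_X_add p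
      have h2 : aeval t p = aeval t (divX p) * t + (p.coeff 0 : Ω) := by
        conv_lhs => rw [← h1]
        rw [map_add, map_mul, aeval_X, aeval_C]
        rfl
      by_cases hc : p.coeff 0 = 0
      · rw [hc, C_0, add_zero] at h1
        have hd : divX p ≠ 0 := by
          intro h
          rw [h, zero_mul] at h1
          exact hp0 h1.symm
        have hn : p.natDegree ≠ 0 := by
          intro h
          rw [natDegree_eq_zero] at h
          obtain ⟨c, rfl⟩ := h
          rw [coeff_C_zero] at hc
          rw [hc, C_0] at hp0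
          exact hp0 rfl
        have h3 := ih (divX p) (by
          rw [natDegree_divX_eq_natDegree_tsub_one]
          omega) hd
        rw [h2, hc]
        simpa using ⟨h3, ht0⟩
      · rw [h2]
        intro h0
        have h3 : V.valuation (aeval t (divX p) * t) < 1 := by
          rw [map_mul]
          exact (mul_le_of_le_one_left' ((V.valuation_le_one_iff _).2 (hval _))).trans_lt ht1
        have h4 : (p.coeff 0 : Ω) = -(aeval t (divX p) * t) := by
          rw [eq_neg_iff_add_eq_zero, add_comm]
          exact h0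
        have h5 := hS1 _ hc
        rw [h4, Valuation.map_neg] at h5
        exact h3.ne h5
  obtain ⟨p, hp0, hp⟩ := halg
  exact key _ p (Nat.lt_succ_self _) hp0 hp

end PUC
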