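import Pool.Agent.H77.PUC.StmtsA

/-!
# Board puc, block COA: coarsenings extend
-/

set_option autoImplicit false

universe u

namespace PUC

/-- the subring of all `f / s` -/
def coaRing {k L : Type u} [Field k] [Field L] [Algebra k L] (A : ValuationSubring L)
    (B0 : ValuationSubring k) : Subring L where
  carrier := {f | ∃ s : k, s ≠ 0 ∧ s ∈ B0 ∧ s⁻¹ ∈ B0 ∧ algebraMap k L s ∈ A ∧
    f * algebraMap k L s ∈ A}
  mul_mem' := by
    rintro f g ⟨s, hs0, hs, hs', hsA, hf⟩ ⟨t, ht0, ht, ht', htA, hg⟩
    refine ⟨s * t, mul_ne_zero hs0 ht0, mul_mem hs ht, ?_, ?_, ?_⟩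
    · rw [mul_inv]
      exact mul_mem hs' ht'
    · rw [map_mul]
      exact mul_mem hsA htA
    · rw [map_mul]
      have := mul_mem hf hg
      convert this using 1
      ring
  one_mem' := ⟨1, one_ne_zero, one_mem _, by simp [one_mem], by simp [one_mem], by
    simp [one_mem]⟩
  add_mem' := by
    rintro f g ⟨s, hs0, hs, hs', hsA, hf⟩ ⟨t, ht0, ht, ht', htA, hg⟩
    refine ⟨s * t, mul_ne_zero hs0 ht0, mul_mem hs ht, ?_, ?_, ?_⟩
    · rw [mul_inv]
      exact mul_mem hs' ht'
    · rw [map_mul]
      exact mul_mem hsA htA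
    · rw [map_mul]
      have := add_mem (mul_mem hf htA) (mul_mem hg hsA)
      convert this using 1
      ring
  zero_mem' := ⟨1, one_ne_zero, one_mem _, by simp [one_mem], by simp [one_mem], by
    simp [zero_mem]⟩
  neg_mem' := by
    rintro f ⟨s, hs0, hs, hs', hsA, hf⟩
    refine ⟨s, hs0, hs, hs', hsA, ?_⟩
    rw [neg_mul]
    exact neg_mem hf

theorem sCoa : SCoa.{u} := by
  intro k L _ _ _ A B0 hAB
  refine ⟨ValuationSubring.ofLE A (coaRing A B0) ?_, ?_, ?_⟩
  · intro f hf
    exact ⟨1, one_ne_zero, one_mem _, by simp [one_mem], by simp [one_mem], by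
      simpa using hf⟩
  · intro f hf
    exact ⟨1, one_ne_zero, one_mem _, by simp [one_mem], by simp [one_mem], by
      simpa using hf⟩
  · intro c
    constructor
    · rintro ⟨s, hs0, hs, hs', hsA, hf⟩
      rw [← map_mul] at hf
      have h1 := mul_mem (hAB _ hf) hs'
      rwa [mul_inv_cancel_right₀ hs0] at h1
    · intro hc
      show algebraMap k L c ∈ coaRing A B0
      by_cases hcA : algebraMap k L c ∈ A
      · exact ⟨1, one_ne_zero, one_mem _, by simp [one_mem], by simp [one_mem], by
          simpa using hcA⟩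
      · have hc0 : c ≠ 0 := by
          rintro rfl
          exact hcA (by simp [zero_mem])
        have h1 : algebraMap k L c⁻¹ ∈ A := by
          rw [map_inv₀]
          exact (A.mem_or_inv_mem _).resolve_left hcA
        refine ⟨c⁻¹, inv_ne_zero hc0, hAB _ h1, by rwa [inv_inv], h1, ?_⟩
        rw [← map_mul, mul_inv_cancel₀ hc0, map_one]
        exact one_mem _

end PUC
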