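import Pool.Agent.H77.PUC.StmtsA

/-!
# Board puc, block EVR: values of rational functions of `z`
-/

set_option autoImplicit false

universe u v

namespace PUC

open Polynomial

theorem EVR_map {K : Type u} {Ω : Type v} [Field K] [Field Ω] [Algebra K Ω]
    [Algebra (RatFunc K) Ω] [IsScalarTower K (RatFunc K) Ω] (p : K[X]) :
    algebraMap (RatFunc K) Ω (algebraMap K[X] (RatFunc K) p) = aeval (zz K Ω) p := by
  have h : ((IsScalarTower.toAlgHom K (RatFunc K) Ω).comp
      (IsScalarTower.toAlgHom K K[X] (RatFunc K))) = aeval (zz K Ω) := by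
    refine Polynomial.algHom_ext ?_
    rw [aeval_X]
    show algebraMap (RatFunc K) Ω (algebraMap K[X] (RatFunc K) X) = zz K Ω
    rw [RatFunc.algebraMap_X]
    rfl
  exact congrArg (fun f => f p) h

theorem EVR_div {K : Type u} {Ω : Type v} [Field K] [Field Ω] [Algebra K Ω]
    [Algebra (RatFunc K) Ω] [IsScalarTower K (RatFunc K) Ω] (h : RatFunc K) :
    algebraMap (RatFunc K) Ω h = aeval (zz K Ω) h.num / aeval (zz K Ω) h.denom := by
  conv_lhs => rw [← RatFunc.num_div_denom h]
  rw [map_div₀, EVR_map, EVR_map]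

theorem sEvr : SEvr.{u} := by
  intro K Ω _ _ _ _ _ P h hz
  have hA := P.aeval_mem hz h.num
  have hB := P.aeval_mem hz h.denom
  have vA := P.val_aeval hz h.num
  have vB := P.val_aeval hz h.denom
  have hd := EVR_div (Ω := Ω) h
  have hB0 : aeval (zz K Ω) h.denom ≠ 0 := by
    rw [← EVR_map]
    simp only [ne_eq, map_eq_zero]
    rw [FaithfulSMul.algebraMap_eq_zero_iff]
    exact h.denom_ne_zero
  have key : reg (P.val (zz K Ω)) h → algebraMap (RatFunc K) Ω h ∈ P.ring ∧
      P.val (algebraMap (RatFunc K) Ω h) = ev (P.val (zz K Ω)) h := by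
    intro hr
    have hv : P.val (aeval (zz K Ω) h.denom) ≠ 0 := by rw [vB]; exact hr
    have hi := P.inv_mem_of_val hB hv
    rw [hd, div_eq_mul_inv]
    refine ⟨P.ring.mul_mem _ _ hA hi, ?_⟩
    rw [P.val_mul hA hi, P.val_inv hB hv, vA, vB]
    unfold ev RatFunc.eval
    rw [div_eq_mul_inv, eval₂_id, eval₂_id]
  refine ⟨⟨fun hm => ?_, fun hr => (key hr).1⟩, fun hr => (key hr).2⟩
  intro h0
  have h1 : algebraMap (RatFunc K) Ω h * aeval (zz K Ω) h.denom = aeval (zz K Ω) h.num := by
    rw [hd, div_mul_cancel₀ _ hB0]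
  have h2 := P.val_mul hm hB
  rw [h1, vA, vB, h0, mul_zero] at h2
  obtain ⟨u, v, huv⟩ := h.isCoprime_num_denom
  have h3 := congrArg (eval (P.val (zz K Ω))) huv
  rw [eval_add, eval_mul, eval_mul, h2, h0, mul_zero, mul_zero, add_zero, eval_one] at h3
  exact zero_ne_one h3

end PUC
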