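import Pool.Agent.H77.PUC.StmtsE

/-!
# Project PUC, module EXV: extension of valuation rings
-/

set_option autoImplicit false

universe u

namespace PUC

/-- Module EXV. -/
theorem sExv : SExv.{u} := by
  intro k L _ _ _ A0
  obtain ⟨A, hA⟩ := (A0.toLocalSubring.map (algebraMap k L)).exists_le_valuationSubring
  obtain ⟨h1, h2⟩ := LocalSubring.le_def.1 hA
  have hmem : ∀ c : k, c ∈ A0 →
      algebraMap k L c ∈ (A0.toLocalSubring.map (algebraMap k L)).toSubring := fun c hc =>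
    Subring.mem_map.2 ⟨c, hc, rfl⟩
  refine ⟨A, fun c => ⟨fun hc => ?_, fun hc => h1 (hmem c hc)⟩⟩
  by_contra hcon
  have hinv : c⁻¹ ∈ A0 := (A0.mem_or_inv_mem c).resolve_left hcon
  have hc0 : c ≠ 0 := by
    rintro rfl
    exact hcon A0.zero_mem
  have hu : IsUnit (Subring.inclusion h1 ⟨algebraMap k L c⁻¹, hmem _ hinv⟩) := by
    refine isUnit_iff_exists_inv.mpr ⟨⟨algebraMap k L c, hc⟩, Subtype.ext ?_⟩
    show algebraMap k L c⁻¹ * algebraMap k L c = 1
    rw [← map_mul, inv_mul_cancel₀ hc0, map_one]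
  obtain ⟨⟨y, hy⟩, hy'⟩ := isUnit_iff_exists_inv.mp (h2.map_nonunit _ hu)
  obtain ⟨a, ha, rfl⟩ := Subring.mem_map.1 hy
  have h3 : algebraMap k L c⁻¹ * algebraMap k L a = 1 := congrArg Subtype.val hy'
  rw [← map_mul, ← map_one (algebraMap k L)] at h3
  have h4 := (algebraMap k L).injective h3
  have h5 : a = c := by
    field_simp at h4
    exact h4
  exact hcon (h5 ▸ ha)

end PUC
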