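import Pool.Agent.H33.PUC.CHV
import Pool.Agent.H33.PUC.EVR

/-!
# Board puc, block ZPL: the places of `Ω` over the points of the projective line
-/

set_option autoImplicit false

universe u v

namespace PUC

open Polynomial

section

variable {K Ω : Type u} [Field K] [IsAlgClosed K] [Field Ω] [Algebra K Ω]
  [Algebra (RatFunc K) Ω] [IsScalarTower K (RatFunc K) Ω] [Algebra.IsAlgebraic (RatFunc K) Ω]

omit [IsAlgClosed K] [Algebra.IsAlgebraic (RatFunc K) Ω] in
theorem ZPL_tr : Transcendental K (zz K Ω) := by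
  rw [transcendental_iff]
  intro p hp
  rw [← EVR_map] at hp
  have h1 := (FaithfulSMul.algebraMap_eq_zero_iff (RatFunc K) Ω).1 hp
  exact (FaithfulSMul.algebraMap_eq_zero_iff K[X] (RatFunc K)).1 h1

/-- Every transcendental element vanishes at some place. -/
theorem ZPL_zero (x : Ω) (hx : Transcendental K x) : ∃ P : Place K Ω, x ∈ P.ring ∧ P.val x = 0 := by
  set A : Subring Ω := (aeval x : K[X] →ₐ[K] Ω).range.toSubring with hA
  have hxA : x ∈ A := ⟨X, by simp⟩
  have hKA : ∀ c : K, algebraMap K Ω c ∈ A := fun c => ⟨C c, by simp⟩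
  have hne : Ideal.span {(⟨x, hxA⟩ : A)} ≠ ⊤ := by
    intro h
    rw [Ideal.span_singleton_eq_top, isUnit_iff_exists_inv] at h
    obtain ⟨⟨b, p, hp⟩, hb⟩ := h
    have h1 : x * b = 1 := congrArg Subtype.val hb
    have h2 : aeval x (X * p - 1) = 0 := by
      rw [map_sub, map_mul, aeval_X, map_one]
      have : aeval x p = b := hp
      rw [this, h1, sub_self]
    have h3 := transcendental_iff.1 hx _ h2
    have h4 := congrArg (eval 0) h3
    simp at h4
  obtain ⟨B, hB1, hB2⟩ := Ideal.image_subset_nonunits_valuationSubring _ hne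
  have hxn : x ∈ B.nonunits :=
    hB2 ⟨⟨x, hxA⟩, Ideal.subset_span rfl, rfl⟩
  have hx0 : x ≠ 0 := by
    rintro rfl
    exact hx (isAlgebraic_zero)
  have hxi : x⁻¹ ∉ B := by
    rw [ValuationSubring.mem_nonunits_iff_or] at hxn
    exact hxn.resolve_left hx0
  have htop : B ≠ ⊤ := by
    intro h
    rw [h] at hxi
    exact hxi (ValuationSubring.mem_top _)
  have hK : ∀ c : K, algebraMap K Ω c ∈ B := fun c => hB1 (hKA c)
  let P : Place K Ω := ⟨B, hK, sChv K Ω B hK htop⟩
  exact ⟨P, P.nonunits_mem hxn, P.val_eq_zero_of_nonunit hxn⟩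

omit [IsAlgClosed K] [Algebra.IsAlgebraic (RatFunc K) Ω] in
/-- a polynomial at a place at infinity -/
theorem ZPL_pol (P : Place K Ω) (hz : zz K Ω ∉ P.ring) (p : K[X]) (hp : p ≠ 0) :
    ∃ u ∈ P.ring, P.val u ≠ 0 ∧ aeval (zz K Ω) p = zz K Ω ^ p.natDegree * u := by
  have hz0 : zz K Ω ≠ 0 := by
    intro h
    rw [h] at hz
    exact hz (zero_mem _)
  have hw := P.inv_mem_of_not_mem hz
  have hw0 := P.val_inv_of_not_mem hz
  refine ⟨aeval (zz K Ω)⁻¹ p.reverse, P.aeval_mem hw _, ?_, ?_⟩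
  · rw [P.val_aeval hw, hw0, ← coeff_zero_eq_eval_zero, coeff_zero_reverse]
    exact leadingCoeff_ne_zero.2 hp
  · let _ : Invertible (zz K Ω) := invertibleOfNonzero hz0
    have h := eval₂_reverse_mul_pow (algebraMap K Ω) (zz K Ω) p
    rw [invOf_eq_inv] at h
    rw [aeval_def, aeval_def, ← h]
    ring

omit [IsAlgClosed K] [Algebra.IsAlgebraic (RatFunc K) Ω] in
theorem ZPL_inf (P : Place K Ω) (hz : zz K Ω ∉ P.ring) (h : RatFunc K) (h0 : h ≠ 0) :
    algebraMap (RatFunc K) Ω h ∈ P.ring ↔ h.num.natDegree ≤ h.denom.natDegree := by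
  have hz0 : zz K Ω ≠ 0 := by
    intro h
    rw [h] at hz
    exact hz (zero_mem _)
  have hw := P.inv_mem_of_not_mem hz
  have hw0 := P.val_inv_of_not_mem hz
  obtain ⟨u, hu, hu0, hun⟩ := ZPL_pol P hz h.num (RatFunc.num_ne_zero h0)
  obtain ⟨v, hv, hv0, hvn⟩ := ZPL_pol P hz h.denom h.denom_ne_zero
  have hune : u ≠ 0 := by
    rintro rfl
    simp at hu0
  have hvne : v ≠ 0 := by
    rintro rfl
    simp at hv0
  have hd := EVR_div (Ω := Ω) h
  rw [hun, hvn] at hd
  constructor
  · intro hm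
    by_contra hlt
    push Not at hlt
    -- the inverse is a nonunit
    have e1 : (algebraMap (RatFunc K) Ω h)⁻¹ =
        (zz K Ω)⁻¹ ^ (h.num.natDegree - h.denom.natDegree) * (v * u⁻¹) := by
      rw [hd]
      obtain ⟨d, hd'⟩ := Nat.exists_eq_add_of_le hlt.le
      rw [hd', Nat.add_sub_cancel_left, pow_add, inv_pow]
      field_simp
    have hui := P.inv_mem_of_val hu hu0
    have h1 : (algebraMap (RatFunc K) Ω h)⁻¹ ∈ P.ring := by
      rw [e1]
      exact P.ring.mul_mem _ _ (P.pow_mem hw _) (P.ring.mul_mem _ _ hv hui)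
    have h2 : P.val (algebraMap (RatFunc K) Ω h)⁻¹ = 0 := by
      rw [e1, P.val_mul (P.pow_mem hw _) (P.ring.mul_mem _ _ hv hui), P.val_pow hw, hw0,
        zero_pow (by omega), zero_mul]
    have h3 : algebraMap (RatFunc K) Ω h ≠ 0 := by
      rw [ne_eq, FaithfulSMul.algebraMap_eq_zero_iff]
      exact h0
    have h4 := P.inv_not_mem h1 h2 (inv_ne_zero h3)
    rw [inv_inv] at h4
    exact h4 hm
  · intro hle
    have e1 : algebraMap (RatFunc K) Ω h =
        (zz K Ω)⁻¹ ^ (h.denom.natDegree - h.num.natDegree) * (u * v⁻¹) := by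
      rw [hd]
      obtain ⟨d, hd'⟩ := Nat.exists_eq_add_of_le hle
      rw [hd', Nat.add_sub_cancel_left, pow_add, inv_pow]
      field_simp
    rw [e1]
    exact P.ring.mul_mem _ _ (P.pow_mem hw _)
      (P.ring.mul_mem _ _ hu (P.inv_mem_of_val hv hv0))

end

theorem sZpl (hCnj : SCnj.{u}) : SZpl.{u} := by
  intro K Ω _ _ _ _ _ _ _ _ _
  refine ⟨fun a => ?_, ?_, fun P P' hPP => ?_⟩
  · have htr : Transcendental K (zz K Ω - algebraMap K Ω a) := by
      intro h
      have := h.add (isAlgebraic_algebraMap a)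
      rw [sub_add_cancel] at this
      exact ZPL_tr this
    obtain ⟨P, h1, h2⟩ := ZPL_zero _ htr
    refine ⟨P, ?_, ?_⟩
    · have := P.ring.add_mem _ _ h1 (P.alg_mem a)
      rwa [sub_add_cancel] at this
    · have := P.val_add h1 (P.alg_mem a)
      rw [sub_add_cancel, h2, P.val_algebraMap, zero_add] at this
      exact this
  · have htr : Transcendental K (zz K Ω)⁻¹ := by
      intro h
      have := h.inv
      rw [inv_inv] at this
      exact ZPL_tr this
    obtain ⟨P, h1, h2⟩ := ZPL_zero _ htr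
    refine ⟨P, fun h => ?_⟩
    have hz0 : zz K Ω ≠ 0 := fun h => ZPL_tr (K := K) (Ω := Ω) (h ▸ isAlgebraic_zero)
    have := P.inv_not_mem h1 h2 (inv_ne_zero hz0)
    rw [inv_inv] at this
    exact this h
  · have : IsAlgClosure (RatFunc K) Ω := ⟨inferInstance, inferInstance⟩
    have : Normal (RatFunc K) Ω := IsAlgClosure.normal (RatFunc K) Ω
    have hmem : ∀ h : RatFunc K, algebraMap (RatFunc K) Ω h ∈ P.ring ↔
        algebraMap (RatFunc K) Ω h ∈ P'.ring := by
      intro h
      by_cases hz : zz K Ω ∈ P.ring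
      · have hz' := hPP.1.1 hz
        rw [(sEvr K Ω P h hz).1, (sEvr K Ω P' h hz').1, hPP.2]
      · have hz' : zz K Ω ∉ P'.ring := fun h => hz (hPP.1.2 h)
        by_cases h0 : h = 0
        · subst h0
          rw [map_zero]
          exact ⟨fun _ => zero_mem _, fun _ => zero_mem _⟩
        · rw [ZPL_inf P hz h h0, ZPL_inf P' hz' h h0]
    obtain ⟨σ, hσ⟩ := hCnj (RatFunc K) Ω P.ring P'.ring hmem
    refine ⟨σ, Place.ext' ?_⟩
    ext f
    rw [Place.mem_gact]
    exact hσ f

end PUC
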